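import Pool.Agent.N71.EX.Stm
import Pool.Agent.N38.BI.CNTh
import Pool.Agent.N665.BI.BUR
import Pool.Agent.H38R2.CG.KR
import Pool.Agent.H38R2.CG.PV
import Pool.Agent.H38R2.CG.N3a

/-!
# Project EX, leaf NAS: the number of ideals of norm at most `x`, two-sided, `x ≥ D^(1/4+η)`
-/

set_option autoImplicit false

namespace Pool.Agent.N45.EX

open Finset Filter NumberField Pool.Agent.H38R2.CG Pool.Agent.N71.BI Pool.Agent.N71.EX
open Pool.Agent.N38.BI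

/-- The sum of the divisor sums, compared with the limit of the series (two-sided). -/
theorem main2 (f : ℕ → ℝ) (β L E : ℝ) (hβ : 0 ≤ β) (hf : ∀ n : ℕ, 1 ≤ n → |f n| ≤ 1)
    (y : ℕ) (hy : 1 ≤ y)
    (hS : ∀ t : ℕ, y ≤ t → |∑ n ∈ Finset.Icc 1 t, f n| ≤ β * t) (x : ℕ) (hyx : y ≤ x)
    (T : ℕ) (hyT : y ≤ T) (hL : |L - ∑ n ∈ Finset.Icc 1 T, f n / n| ≤ E) :
    |∑ n ∈ Finset.Icc 1 x, ∑ m ∈ n.divisors, f m - L * x| ≤
      x * (E + β * (3 + Real.log T)) + y + 2 * β * x * (1 + Real.log x) := by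
  have h1 := CNTh.hyper f β hβ hf y hy hS x hyx
  have h2 := CNTh.tail f β hβ y hy hS T hyT
  have e : ∑ n ∈ Finset.Icc 1 T, f n / n =
      ∑ n ∈ Finset.Icc 1 y, f n / n + ∑ m ∈ Finset.Ioc y T, f m / m := by
    rw [← Finset.sum_union]
    · congr 1
      ext m
      simp only [Finset.mem_union, Finset.mem_Icc, Finset.mem_Ioc]
      omega
    · rw [Finset.disjoint_left]
      intro m h1 h2
      rw [Finset.mem_Icc] at h1
      rw [Finset.mem_Ioc] at h2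
      omega
  have h3 : |∑ n ∈ Finset.Icc 1 y, f n / n - L| ≤ E + β * (3 + Real.log T) := by
    rw [e] at hL
    have a1 := abs_le.1 hL
    have a2 := abs_le.1 h2
    rw [abs_le]
    constructor <;> linarith [a1.1, a1.2, a2.1, a2.2]
  have h4 : |(x : ℝ) * ∑ n ∈ Finset.Icc 1 y, f n / n - L * x| ≤
      x * (E + β * (3 + Real.log T)) := by
    have : (x : ℝ) * ∑ n ∈ Finset.Icc 1 y, f n / n - L * x =
        x * (∑ n ∈ Finset.Icc 1 y, f n / n - L) := by ring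
    rw [this, abs_mul, Nat.abs_cast]
    exact mul_le_mul_of_nonneg_left h3 (Nat.cast_nonneg _)
  have h5 := abs_add_le ((∑ n ∈ Finset.Icc 1 x, ∑ m ∈ n.divisors, f m) -
    x * ∑ m ∈ Finset.Icc 1 y, f m / m) ((x : ℝ) * ∑ n ∈ Finset.Icc 1 y, f n / n - L * x)
  have e2 : (∑ n ∈ Finset.Icc 1 x, ∑ m ∈ n.divisors, f m) -
      x * ∑ m ∈ Finset.Icc 1 y, f m / m + ((x : ℝ) * ∑ n ∈ Finset.Icc 1 y, f n / n - L * x) =
      ∑ n ∈ Finset.Icc 1 x, ∑ m ∈ n.divisors, f m - L * x := by ring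
  rw [e2] at h5
  linarith

/-- **NAS.** -/
theorem t_NAS : E_NAS := by
  intro η hη
  obtain ⟨δ, C, hδ, hC, hB⟩ := Pool.Agent.N665.BI.t_BUR (η / 2) (by positivity)
  obtain ⟨C', hC', hN3a⟩ := T_N3a T_KR T_PV
  set d : ℝ := min (δ / 2) (min (η / 2) (1 / 2)) with hddef
  have hd : 0 < d := by
    rw [hddef]
    exact lt_min (by positivity) (lt_min (by positivity) (by norm_num))
  have hd1 : d ≤ δ / 2 := min_le_left _ _
  have hd2 : d ≤ η / 2 := (min_le_right _ _).trans (min_le_left _ _)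
  have hd3 : d ≤ 1 / 2 := (min_le_right _ _).trans (min_le_right _ _)
  refine ⟨d, C' / d + C * (3 + 2 / d) + 2 + 2 * C * (1 + 1 / d), hd, by positivity, ?_⟩
  intro D hD x hx hxD
  have hD1 : 1 < D := hD.1
  have hDr : (1 : ℝ) < D := by exact_mod_cast hD1
  have hDp : (0 : ℝ) < D := by linarith
  have hx1 : 1 ≤ x := by
    have h1 : (1 : ℝ) ≤ (D : ℝ) ^ (1 / 4 + η) := Real.one_le_rpow hDr.le (by positivity)
    have h2 : (1 : ℝ) ≤ x := h1.trans hx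
    exact_mod_cast h2
  have hxp : (0 : ℝ) < x := by exact_mod_cast hx1
  set β : ℝ := C * (D : ℝ) ^ (-δ) with hβdef
  have hβ : 0 ≤ β := by positivity
  set y : ℕ := ⌈(D : ℝ) ^ (1 / 4 + η / 2)⌉₊ with hydef
  have hpow1 : (1 : ℝ) ≤ (D : ℝ) ^ (1 / 4 + η / 2) := Real.one_le_rpow hDr.le (by positivity)
  have hy1 : 1 ≤ y := by
    rw [hydef, Nat.one_le_ceil_iff]
    linarith
  have hyx : y ≤ x := by
    rw [hydef, Nat.ceil_le]
    refine le_trans ?_ hx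
    exact Real.rpow_le_rpow_of_exponent_le hDr.le (by linarith)
  have hy2 : (y : ℝ) ≤ 2 * (D : ℝ) ^ (-(η / 2)) * x := by
    have h1 : (y : ℝ) < (D : ℝ) ^ (1 / 4 + η / 2) + 1 := Nat.ceil_lt_add_one (by positivity)
    have h2 : (D : ℝ) ^ (1 / 4 + η / 2) = (D : ℝ) ^ (-(η / 2)) * (D : ℝ) ^ (1 / 4 + η) := by
      rw [← Real.rpow_add hDp]
      congr 1
      ring
    have h3 : (D : ℝ) ^ (-(η / 2)) * (D : ℝ) ^ (1 / 4 + η) ≤ (D : ℝ) ^ (-(η / 2)) * x :=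
      mul_le_mul_of_nonneg_left hx (Real.rpow_nonneg hDp.le _)
    linarith
  have hT : y ≤ D ^ 2 := by
    calc y ≤ D := hyx.trans hxD
      _ ≤ D ^ 2 := by nlinarith
  have hT1 : 1 ≤ D ^ 2 := by nlinarith
  obtain ⟨χ, hχ1, hχ⟩ := T_KR D hD
  have hf : ∀ n : ℕ, 1 ≤ n → |(chi D n : ℝ)| ≤ 1 := by
    intro n hn
    have h := DirichletCharacter.norm_le_one χ (n : ZMod D)
    rw [hχ n hn, Complex.norm_intCast] at h
    exact_mod_cast h
  have hBS : ∀ t : ℕ, y ≤ t → |∑ n ∈ Finset.Icc 1 t, (chi D n : ℝ)| ≤ β * t := by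
    intro t ht
    apply hB D hD t
    calc (D : ℝ) ^ (1 / 4 + η / 2) ≤ y := Nat.le_ceil _
      _ ≤ t := by exact_mod_cast ht
  have hmain := main2 (fun n => (chi D n : ℝ)) β (Lone D)
    (C' * √(D : ℝ) * Real.log D / ((D ^ 2 : ℕ) : ℝ)) hβ hf y hy1 hBS x hyx (D ^ 2) hT
    (hN3a D hD (D ^ 2) hT1)
  have hrr : ∑ n ∈ Finset.Icc 1 x, rr D n =
      ∑ n ∈ Finset.Icc 1 x, ∑ m ∈ n.divisors, (chi D m : ℝ) := rfl
  rw [hrr]
  refine hmain.trans ?_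
  have hlogT : Real.log ((D ^ 2 : ℕ) : ℝ) = 2 * Real.log D := by
    push_cast
    rw [Real.log_pow]
    norm_num
  have hlogx : Real.log x ≤ Real.log D :=
    Real.log_le_log hxp (by exact_mod_cast hxD)
  have hlogD : 0 ≤ Real.log D := Real.log_nonneg hDr.le
  have hlog : Real.log D ≤ (D : ℝ) ^ d / d := Real.log_le_rpow_div hDp.le hd
  have hDd : (1 : ℝ) ≤ (D : ℝ) ^ d := Real.one_le_rpow hDr.le hd.le
  have hP : 0 < (D : ℝ) ^ (-d) := Real.rpow_pos_of_pos hDp _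
  have hPP : (D : ℝ) ^ (-d) * (D : ℝ) ^ d = 1 := by
    rw [← Real.rpow_add hDp]; simp
  -- the bound for β
  have hβ1 : β ≤ C * ((D : ℝ) ^ (-d) * (D : ℝ) ^ (-d)) := by
    rw [hβdef, ← Real.rpow_add hDp]
    apply mul_le_mul_of_nonneg_left _ hC.le
    exact Real.rpow_le_rpow_of_exponent_le hDr.le (by linarith)
  have hβ2 : β * (D : ℝ) ^ d ≤ C * (D : ℝ) ^ (-d) := by
    calc β * (D : ℝ) ^ d ≤ C * ((D : ℝ) ^ (-d) * (D : ℝ) ^ (-d)) * (D : ℝ) ^ d :=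
          mul_le_mul_of_nonneg_right hβ1 (by positivity)
      _ = C * (D : ℝ) ^ (-d) * ((D : ℝ) ^ (-d) * (D : ℝ) ^ d) := by ring
      _ = C * (D : ℝ) ^ (-d) := by rw [hPP, mul_one]
  have hβ3 : β ≤ C * (D : ℝ) ^ (-d) := by
    refine le_trans ?_ hβ2
    nlinarith
  have hβL : β * Real.log D ≤ C * (D : ℝ) ^ (-d) / d := by
    calc β * Real.log D ≤ β * ((D : ℝ) ^ d / d) := mul_le_mul_of_nonneg_left hlog hβ
      _ = β * (D : ℝ) ^ d / d := by ring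
      _ ≤ C * (D : ℝ) ^ (-d) / d := div_le_div_of_nonneg_right hβ2 hd.le
  -- the term E
  have hE : C' * √(D : ℝ) * Real.log D / ((D ^ 2 : ℕ) : ℝ) ≤ C' / d * (D : ℝ) ^ (-d) := by
    have h1 : √(D : ℝ) / ((D ^ 2 : ℕ) : ℝ) = (D : ℝ) ^ (-(3 / 2 : ℝ)) := by
      rw [Real.sqrt_eq_rpow]
      push_cast
      rw [← Real.rpow_natCast (D : ℝ) 2, ← Real.rpow_sub hDp]
      congr 1
      push_cast
      ring
    have h2 : (D : ℝ) ^ (-(3 / 2 : ℝ)) ≤ (D : ℝ) ^ (-d) * (D : ℝ) ^ (-d) := by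
      rw [← Real.rpow_add hDp]
      exact Real.rpow_le_rpow_of_exponent_le hDr.le (by linarith)
    calc C' * √(D : ℝ) * Real.log D / ((D ^ 2 : ℕ) : ℝ)
        = C' * (√(D : ℝ) / ((D ^ 2 : ℕ) : ℝ)) * Real.log D := by ring
      _ = C' * (D : ℝ) ^ (-(3 / 2 : ℝ)) * Real.log D := by rw [h1]
      _ ≤ C' * ((D : ℝ) ^ (-d) * (D : ℝ) ^ (-d)) * ((D : ℝ) ^ d / d) := by
          apply mul_le_mul _ hlog hlogD (by positivity)
          exact mul_le_mul_of_nonneg_left h2 hC'.le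
      _ = C' / d * (D : ℝ) ^ (-d) * ((D : ℝ) ^ (-d) * (D : ℝ) ^ d) := by ring
      _ = C' / d * (D : ℝ) ^ (-d) := by rw [hPP, mul_one]
  have hy3 : (y : ℝ) ≤ 2 * (D : ℝ) ^ (-d) * x := by
    refine hy2.trans ?_
    apply mul_le_mul_of_nonneg_right _ hxp.le
    apply mul_le_mul_of_nonneg_left _ (by norm_num)
    exact Real.rpow_le_rpow_of_exponent_le hDr.le (by linarith)
  rw [hlogT]
  have k1 : (x : ℝ) * (C' * √(D : ℝ) * Real.log D / ((D ^ 2 : ℕ) : ℝ) +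
      β * (3 + 2 * Real.log D)) ≤
      x * (C' / d * (D : ℝ) ^ (-d) + C * (3 + 2 / d) * (D : ℝ) ^ (-d)) := by
    apply mul_le_mul_of_nonneg_left _ hxp.le
    have : β * (3 + 2 * Real.log D) ≤ C * (3 + 2 / d) * (D : ℝ) ^ (-d) := by
      have e : C * (3 + 2 / d) * (D : ℝ) ^ (-d) =
          3 * (C * (D : ℝ) ^ (-d)) + 2 * (C * (D : ℝ) ^ (-d) / d) := by ring
      rw [e]
      linarith
    linarith
  have k2 : 2 * β * x * (1 + Real.log x) ≤ x * (2 * C * (1 + 1 / d) * (D : ℝ) ^ (-d)) := by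
    have e : x * (2 * C * (1 + 1 / d) * (D : ℝ) ^ (-d)) =
        2 * x * (C * (D : ℝ) ^ (-d) + C * (D : ℝ) ^ (-d) / d) := by ring
    rw [e]
    have h1 : β * (1 + Real.log x) ≤ C * (D : ℝ) ^ (-d) + C * (D : ℝ) ^ (-d) / d := by
      have : β * Real.log x ≤ β * Real.log D := mul_le_mul_of_nonneg_left hlogx hβ
      linarith
    have h2 : 2 * β * x * (1 + Real.log x) = 2 * x * (β * (1 + Real.log x)) := by ring
    rw [h2]
    exact mul_le_mul_of_nonneg_left h1 (by positivity)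
  calc (x : ℝ) * (C' * √(D : ℝ) * Real.log D / ((D ^ 2 : ℕ) : ℝ) +
      β * (3 + 2 * Real.log D)) + y + 2 * β * x * (1 + Real.log x)
      ≤ x * (C' / d * (D : ℝ) ^ (-d) + C * (3 + 2 / d) * (D : ℝ) ^ (-d)) +
        2 * (D : ℝ) ^ (-d) * x + x * (2 * C * (1 + 1 / d) * (D : ℝ) ^ (-d)) := by linarith
    _ = (C' / d + C * (3 + 2 / d) + 2 + 2 * C * (1 + 1 / d)) * (D : ℝ) ^ (-d) * x := by ring

end Pool.Agent.N45.EX
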